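import Mathlib
import Pool.Agent.H27.Brachy

theorem Pool.Agent.Results.MP_041051_al.NotAdditive.result :
    ∃ (R : Type) (_ : NonAssocRing R) (f : R → ZMod 2),
      (∀ x, f (1 + x) = 1 + f x) ∧ (∀ x y, f (x * y) = f x * f y) ∧
      ¬ ∀ x y, f (x + y) = f x + f y :=
  ⟨Pool.Agent.H27.Brachy.R, inferInstance, Pool.Agent.H27.Brachy.f,
    Pool.Agent.H27.Brachy.f_succ, Pool.Agent.H27.Brachy.f_mul, Pool.Agent.H27.Brachy.f_not_add⟩
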